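import Pool.Agent.H930Z.Dir.Spec

open Set Filter Topology Real

noncomputable section

namespace H599Z.DirOneD

open H930Z.Dir

variable {j : ℝ} {F G G' : ℝ → ℝ}

lemma da (h : Bes j F G G') (x : ℝ) :
    HasDerivAt (fun x => F (x ^ 2)) (-(x * G (x ^ 2))) x := by
  have := (h.dF (x ^ 2)).comp x (hasDerivAt_pow 2 x)
  refine HasDerivAt.congr_deriv this ?_
  simp; ring

lemma db (h : Bes j F G G') (x : ℝ) :
    HasDerivAt (fun x => x * G (x ^ 2)) (F (x ^ 2) - G (x ^ 2)) x := by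
  have := (hasDerivAt_id x).mul ((h.dG (x ^ 2)).comp x (hasDerivAt_pow 2 x))
  refine HasDerivAt.congr_deriv this ?_
  have e := h.eG (x ^ 2)
  simp only [id, Function.comp]
  push_cast
  linear_combination 2 * e

def nn (F G : ℝ → ℝ) (x : ℝ) : ℝ := F (x ^ 2) ^ 2 + (x * G (x ^ 2)) ^ 2

def tau (F G : ℝ → ℝ) (x : ℝ) : ℝ := (F (x ^ 2) ^ 2 - (x * G (x ^ 2)) ^ 2) / nn F G x

def mm (F G : ℝ → ℝ) (x : ℝ) : ℝ := nn F G x / (F (x ^ 2) * G (x ^ 2)) - 2

lemma nn_pos (h : Bes j F G G') {x : ℝ} (hx : x ∈ Icc 0 j) : 0 < nn F G x := by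
  have := h.Fpos x hx
  unfold nn; positivity

lemma mm_nonneg (h : Bes j F G G') {x : ℝ} (hx : x ∈ Ioo 0 j) : 0 ≤ mm F G x := by
  have hd : ∀ x, HasDerivAt (fun x => x ^ 2 * (F (x ^ 2) ^ 2 + (x * G (x ^ 2)) ^ 2) -
      2 * x * (F (x ^ 2) * (x * G (x ^ 2)))) (2 * x * (x * G (x ^ 2)) ^ 2) x := by
    intro x
    have := ((hasDerivAt_pow 2 x).mul (((da h x).pow 2).add ((db h x).pow 2))).sub
      (((hasDerivAt_id x).const_mul 2).mul ((da h x).mul (db h x)))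
    refine HasDerivAt.congr_deriv this ?_
    simp; ring
  have mono := monotoneOn_of_deriv_nonneg (convex_Ici 0)
    (fun x _ => (hd x).continuousAt.continuousWithinAt)
    (fun x _ => (hd x).differentiableAt.differentiableWithinAt) (fun x hx => by
      rw [(hd x).deriv]
      have : 0 < x := by simpa using hx
      positivity)
  have h1 := mono (mem_Ici.2 le_rfl) (mem_Ici.2 hx.1.le) hx.1.le
  have hF := h.Fpos x (Ioo_subset_Icc_self hx)
  have hG := h.Gpos x (Ioo_subset_Icc_self hx)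
  have hx0 := hx.1
  unfold mm nn
  rw [sub_nonneg, le_div_iff₀ (mul_pos hF hG)]
  have h2 : 0 ≤ x ^ 2 * (F (x ^ 2) ^ 2 + (x * G (x ^ 2)) ^ 2 - 2 * (F (x ^ 2) * G (x ^ 2))) := by
    simp only at h1
    nlinarith
  have := (mul_nonneg_iff_of_pos_left (by positivity : 0 < x ^ 2)).1 h2
  linarith

lemma tau_mem (h : Bes j F G G') {x : ℝ} (hx : x ∈ Ioo 0 j) : 0 < tau F G x ∧ tau F G x < 1 := by
  have hF := h.Fpos x (Ioo_subset_Icc_self hx)
  have hG := h.Gpos x (Ioo_subset_Icc_self hx)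
  have hl := h.lt x (Ioo_subset_Ico_self hx)
  have hn := nn_pos h (Ioo_subset_Icc_self hx)
  have hb : 0 < x * G (x ^ 2) := mul_pos hx.1 hG
  unfold tau
  refine ⟨div_pos (by nlinarith) hn, (div_lt_one hn).2 ?_⟩
  unfold nn; nlinarith

lemma sqrt_tau (h : Bes j F G G') {x : ℝ} (hx : x ∈ Ioo 0 j) :
    √(1 - tau F G x ^ 2) = 2 * x / (mm F G x + 2) := by
  have hF := h.Fpos x (Ioo_subset_Icc_self hx)
  have hG := h.Gpos x (Ioo_subset_Icc_self hx)
  have hn := nn_pos h (Ioo_subset_Icc_self hx)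
  have hm := mm_nonneg h hx
  have := hx.1
  rw [sqrt_eq_iff_mul_self_eq (by have := tau_mem h hx; nlinarith) (by positivity)]
  unfold tau mm
  rw [sub_add_cancel]
  field_simp
  unfold nn
  ring

lemma dtau (h : Bes j F G G') {x : ℝ} (hx : x ∈ Ioo 0 j) :
    HasDerivAt (tau F G) (-(4 * x * (1 + mm F G x) / (mm F G x + 2) ^ 2)) x := by
  have hF := h.Fpos x (Ioo_subset_Icc_self hx)
  have hG := h.Gpos x (Ioo_subset_Icc_self hx)
  have hn := nn_pos h (Ioo_subset_Icc_self hx)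
  have := (((da h x).pow 2).sub ((db h x).pow 2)).div (((da h x).pow 2).add ((db h x).pow 2))
    hn.ne'
  refine HasDerivAt.congr_deriv this ?_
  have e : F (x ^ 2) ^ 2 + (x * G (x ^ 2)) ^ 2 = nn F G x := rfl
  simp only [Pi.add_apply, Pi.sub_apply, Pi.pow_apply, e]
  unfold mm
  rw [sub_add_cancel]
  field_simp
  unfold nn
  push_cast
  ring

lemma tau_anti (h : Bes j F G G') : StrictAntiOn (tau F G) (Ioo 0 j) :=
  strictAntiOn_of_deriv_neg (convex_Ioo 0 j)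
    (fun x hx => (dtau h hx).continuousAt.continuousWithinAt) (fun x hx => by
      rw [interior_Ioo] at hx
      rw [(dtau h hx).deriv]
      have := mm_nonneg h hx
      have := hx.1
      rw [neg_lt_zero]
      positivity)

lemma mm_small (h : Bes j F G G') {ε : ℝ} (hε : 0 < ε) :
    ∃ δ > 0, ∀ x, 0 < x → x < δ → mm F G x < ε := by
  have hG : G 0 = 1 / 2 := by
    have := h.eG 0
    rw [h.F0] at this
    linarith
  have c1 := (da h 0).continuousAt
  have c2 := (db h 0).continuousAt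
  have c3 : ContinuousAt (fun x : ℝ => G (x ^ 2)) 0 :=
    ((h.sG 0).continuous.comp (continuous_pow 2)).continuousAt
  have c : ContinuousAt (mm F G) 0 :=
    (((c1.pow 2).add (c2.pow 2)).div (c1.mul c3) (by simp [h.F0, hG])).sub continuousAt_const
  have h0 : mm F G 0 < ε := by simpa [mm, nn, h.F0, hG] using hε
  obtain ⟨δ, h1, h2⟩ := Metric.eventually_nhds_iff.1 (c.eventually (gt_mem_nhds h0))
  exact ⟨δ, h1, fun x k1 k2 => h2 (by simpa [abs_of_pos k1] using k2)⟩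

lemma barrier {g B : ℝ → ℝ} {a b : ℝ} (hab : a ≤ b) (hg : Continuous g)
    (hB : MonotoneOn B (Icc a b)) (h0 : g a ≤ B a)
    (h : ∀ y ∈ Ico a b, g y ≤ B y → ¬ ∀ z ∈ Ioc y b, B z < g z) : g b ≤ B b := by
  have ne : {x | x ∈ Icc a b ∧ g x ≤ B x}.Nonempty := ⟨a, left_mem_Icc.2 hab, h0⟩
  have bd : BddAbove {x | x ∈ Icc a b ∧ g x ≤ B x} := ⟨b, fun x hx => hx.1.2⟩
  set y := sSup {x | x ∈ Icc a b ∧ g x ≤ B x} with hy
  have y1 : y ∈ Icc a b := ⟨le_csSup bd ⟨left_mem_Icc.2 hab, h0⟩, csSup_le ne fun x hx => hx.1.2⟩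
  have y2 : g y ≤ B y :=
    closure_minimal (t := {x | g x ≤ B y}) (fun x hx => hx.2.trans (hB hx.1 y1 (le_csSup bd hx)))
      (isClosed_le hg continuous_const) (csSup_mem_closure ne bd)
  rcases y1.2.eq_or_lt with h1 | h1
  · exact h1 ▸ y2
  · refine absurd (fun z hz => ?_) (h y ⟨y1.1, h1⟩ y2)
    by_contra h2
    exact absurd (le_csSup bd ⟨⟨y1.1.trans hz.1.le, hz.2⟩, not_lt.1 h2⟩) (not_le.2 hz.1)

lemma contact (h : Bes j F G G') {E : ℝ} {A : ℝ → ℝ} (hE : 0 < E) (h0 : ∀ t, 0 ≤ A t)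
    (hA : Antitone A)
    (H : ∀ t1 t2 k : ℝ, 0 < t1 → t1 < t2 → t2 < 1 → 0 ≤ k →
      (t2 - t1) * (2 * π + k * (2 * √π * A t2 / √(A t1))) ≤
        (E + k * √(1 - t1 ^ 2) / 2) ^ 2 * (A t1 - A t2))
    {c x1 y b : ℝ} (hy : 0 < y) (hyb : y < b) (hb : b < j)
    (g0 : 0 ≤ c * (y ^ 2 - x1 ^ 2)) (h1 : c * (y ^ 2 - x1 ^ 2) ≤ A (tau F G y))
    (h2 : ∀ z ∈ Ioc y b, A (tau F G z) < c * (z ^ 2 - x1 ^ 2)) :
    π + E * mm F G y / y * (√π * √(c * (y ^ 2 - x1 ^ 2))) ≤ E ^ 2 * c * (1 + mm F G y) := by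
  have yj : y ∈ Ioo 0 j := ⟨hy, hyb.trans hb⟩
  have hm := mm_nonneg h yj
  set m := mm F G y with hm'
  set k := E * m / y with hk
  have k0 : 0 ≤ k := by positivity
  have ev : ∀ᶠ z in 𝓝[>] y, -slope (tau F G) y z *
      (2 * π + k * (2 * √π * (c * (y ^ 2 - x1 ^ 2) / √(c * (z ^ 2 - x1 ^ 2))))) ≤
      (E + k * √(1 - tau F G z ^ 2) / 2) ^ 2 * (c * (z + y)) := by
    filter_upwards [Ioc_mem_nhdsGT hyb] with z hz
    have zj : z ∈ Ioo 0 j := ⟨hy.trans hz.1, hz.2.trans_lt hb⟩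
    have lt := tau_anti h yj zj hz.1
    have k1 := H _ _ k (tau_mem h zj).1 lt (tau_mem h yj).2 k0
    have k2 : c * (y ^ 2 - x1 ^ 2) / √(c * (z ^ 2 - x1 ^ 2)) ≤
        A (tau F G y) / √(A (tau F G z)) := by
      rcases (h0 (tau F G z)).eq_or_lt with k3 | k3
      · have := hA lt.le
        have k4 : c * (y ^ 2 - x1 ^ 2) = 0 := by linarith
        rw [k4, ← k3]; simp
      · exact div_le_div₀ (h0 _) h1 (sqrt_pos.2 k3) (sqrt_le_sqrt (h2 z hz).le)
    have zy : 0 < z - y := sub_pos.2 hz.1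
    rw [slope_def_field, ← neg_div, div_mul_eq_mul_div, div_le_iff₀ zy]
    have k3 := h2 z hz
    calc _ ≤ (tau F G y - tau F G z) * (2 * π + k * (2 * √π * A (tau F G y) /
          √(A (tau F G z)))) := by
          rw [neg_sub, mul_div_assoc (2 * √π)]
          gcongr
      _ ≤ _ := k1
      _ ≤ _ := by
          rw [mul_assoc]
          gcongr
          linarith
  have t1 : Tendsto (slope (tau F G) y) (𝓝[>] y) (𝓝 (-(4 * y * (1 + m) / (m + 2) ^ 2))) :=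
    (hasDerivAt_iff_tendsto_slope.1 (dtau h yj)).mono_left (nhdsGT_le_nhdsNE y)
  have t2 : Tendsto (fun z => c * (y ^ 2 - x1 ^ 2) / √(c * (z ^ 2 - x1 ^ 2))) (𝓝[>] y)
      (𝓝 (√(c * (y ^ 2 - x1 ^ 2)))) := by
    rcases g0.eq_or_lt with k1 | k1
    · rw [← k1]; simp
    · rw [← div_sqrt]
      refine Tendsto.mono_left (ContinuousAt.tendsto ?_) nhdsWithin_le_nhds
      exact continuousAt_const.div (by fun_prop) (sqrt_pos.2 k1).ne'
  have t3 : Tendsto (fun z => (E + k * √(1 - tau F G z ^ 2) / 2) ^ 2 * (c * (z + y))) (𝓝[>] y)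
      (𝓝 ((E + k * √(1 - tau F G y ^ 2) / 2) ^ 2 * (c * (y + y)))) := by
    refine Tendsto.mono_left (ContinuousAt.tendsto (f := fun z =>
      (E + k * √(1 - tau F G z ^ 2) / 2) ^ 2 * (c * (z + y))) ?_) nhdsWithin_le_nhds
    have := (dtau h yj).continuousAt
    fun_prop
  have := le_of_tendsto_of_tendsto (t1.neg.mul (((t2.const_mul (2 * √π)).const_mul k).const_add
    (2 * π))) t3 ev
  rw [sqrt_tau h yj, ← hm'] at this
  have e1 : (E + k * (2 * y / (m + 2)) / 2) ^ 2 * (c * (y + y)) =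
      (8 * y * (1 + m) / (m + 2) ^ 2) * (E ^ 2 * c * (1 + m)) := by
    rw [hk]; field_simp; ring
  have e2 : - -(4 * y * (1 + m) / (m + 2) ^ 2) *
      (2 * π + k * (2 * √π * √(c * (y ^ 2 - x1 ^ 2)))) =
      (8 * y * (1 + m) / (m + 2) ^ 2) * (π + k * (√π * √(c * (y ^ 2 - x1 ^ 2)))) := by ring
  rw [e1, e2] at this
  exact le_of_mul_le_mul_left this (by positivity)

theorem oneD : S_oneD := by
  intro j F G G' h E V A hE h0 hV hA H
  have hj := h.jpos
  have key : ∀ θ ∈ Ioo (0 : ℝ) 1, θ ^ 2 * π / E ^ 2 * (θ * j) ^ 2 ≤ V := by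
    intro θ hθ
    have θ0 := hθ.1
    have θ1 : 0 < 1 - θ ^ 2 := by nlinarith [hθ.2]
    have b0 : 0 < θ * j := by positivity
    have bj : θ * j < j := by nlinarith [hθ.2]
    obtain ⟨δ, δ0, hδ⟩ := mm_small h θ1
    have ev : ∀ᶠ x1 in 𝓝[>] (0 : ℝ), θ ^ 2 * π / E ^ 2 * ((θ * j) ^ 2 - x1 ^ 2) ≤ V := by
      have e1 : ∀ᶠ x1 in 𝓝[>] (0 : ℝ), x1 ^ 2 < δ ^ 2 * (1 - θ ^ 2) :=
        nhdsWithin_le_nhds ((continuous_pow 2).continuousAt.eventually_lt continuousAt_const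
          (by simp only [ne_eq, OfNat.ofNat_ne_zero, not_false_eq_true, zero_pow]; positivity))
      filter_upwards [Ioo_mem_nhdsGT b0, e1] with x1 hx hx'
      refine le_trans (barrier (g := fun x => θ ^ 2 * π / E ^ 2 * (x ^ 2 - x1 ^ 2))
        (B := fun x => A (tau F G x)) hx.2.le (by fun_prop) ?_ (by simpa using h0 _) ?_) (hV _)
      · intro p hp q hq hpq
        exact hA ((tau_anti h).antitoneOn ⟨hx.1.trans_le hp.1, hp.2.trans_lt bj⟩
          ⟨hx.1.trans_le hq.1, hq.2.trans_lt bj⟩ hpq)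
      · intro y hy h1 h2
        have y0 : 0 < y := hx.1.trans_le hy.1
        have g0 : 0 ≤ θ ^ 2 * π / E ^ 2 * (y ^ 2 - x1 ^ 2) :=
          mul_nonneg (by positivity) (by nlinarith [hy.1, hx.1])
        have k := contact h hE h0 hA H y0 hy.2 bj g0 h1 h2
        have hm := mm_nonneg h (x := y) ⟨y0, hy.2.trans bj⟩
        have e : E ^ 2 * (θ ^ 2 * π / E ^ 2) = θ ^ 2 * π := by field_simp
        rw [e] at k
        have hp := pi_pos
        by_cases hc : x1 ^ 2 ≤ y ^ 2 * (1 - θ ^ 2)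
        · have k1 : θ ^ 2 * √π * y / E ≤ √(θ ^ 2 * π / E ^ 2 * (y ^ 2 - x1 ^ 2)) := by
            apply le_sqrt_of_sq_le
            have : (θ ^ 2 * √π * y / E) ^ 2 = θ ^ 2 * π / E ^ 2 * (θ ^ 2 * y ^ 2) := by
              rw [div_pow, mul_pow, mul_pow, sq_sqrt hp.le]; field_simp
            rw [this]
            gcongr
            linarith
          have k2 : E * mm F G y / y * (√π * (θ ^ 2 * √π * y / E)) = θ ^ 2 * π * mm F G y := by
            have := mul_self_sqrt hp.le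
            field_simp
            rw [sq_sqrt hp.le]
          have k3 : E * mm F G y / y * (√π * (θ ^ 2 * √π * y / E)) ≤
              E * mm F G y / y * (√π * √(θ ^ 2 * π / E ^ 2 * (y ^ 2 - x1 ^ 2))) := by gcongr
          nlinarith
        · have k1 : y < δ := by
            by_contra h3
            have : δ ^ 2 ≤ y ^ 2 := by nlinarith
            nlinarith
          have k2 := hδ y y0 k1
          have k3 : 0 ≤ E * mm F G y / y * (√π * √(θ ^ 2 * π / E ^ 2 * (y ^ 2 - x1 ^ 2))) := by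
            positivity
          have k4 : θ ^ 2 * (1 + mm F G y) < 1 := by nlinarith [sq_nonneg (1 - θ ^ 2)]
          nlinarith
    have t : Tendsto (fun x1 : ℝ => θ ^ 2 * π / E ^ 2 * ((θ * j) ^ 2 - x1 ^ 2)) (𝓝[>] 0)
        (𝓝 (θ ^ 2 * π / E ^ 2 * ((θ * j) ^ 2 - 0 ^ 2))) :=
      Tendsto.mono_left (Continuous.tendsto (by fun_prop) _) nhdsWithin_le_nhds
    simpa using le_of_tendsto t ev
  have t : Tendsto (fun θ : ℝ => θ ^ 2 * π / E ^ 2 * (θ * j) ^ 2) (𝓝[<] 1)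
      (𝓝 (1 ^ 2 * π / E ^ 2 * (1 * j) ^ 2)) :=
    Tendsto.mono_left (Continuous.tendsto (by fun_prop) _) nhdsWithin_le_nhds
  have := le_of_tendsto t (by
    filter_upwards [Ioo_mem_nhdsLT (zero_lt_one' ℝ)] with θ hθ using key θ hθ)
  calc π * (j / E) ^ 2 = 1 ^ 2 * π / E ^ 2 * (1 * j) ^ 2 := by field_simp
    _ ≤ V := this

end H599Z.DirOneD
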